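import Pool.Agent.Helper87.HQ.St

set_option autoImplicit false

/-!
# Project HQ, module C3: the condition that a sinusoid is at most one on a short interval
-/

namespace Pool.Agent.Helper39.HQ

open Pool.Agent.Helper87.HQ
open Set Real

private lemma sq_id (a b s c : ℝ) (h : s ^ 2 + c ^ 2 = 1) :
    (a * c + b * s) ^ 2 + (b * c - a * s) ^ 2 = a ^ 2 + b ^ 2 := by
  linear_combination (a ^ 2 + b ^ 2) * h

private lemma g_shift (κ a b y t : ℝ) :
    b * cos (κ * y) - a * sin (κ * y) =
      (b * cos (κ * t) - a * sin (κ * t)) * cos (κ * (y - t)) -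
        (a * cos (κ * t) + b * sin (κ * t)) * sin (κ * (y - t)) := by
  have h : κ * y = κ * t + κ * (y - t) := by ring
  rw [h, cos_add, sin_add]
  ring

private lemma hasDeriv (κ a b t : ℝ) :
    HasDerivAt (fun y => a * cos (κ * y) + b * sin (κ * y))
      (κ * (b * cos (κ * t) - a * sin (κ * t))) t := by
  have h0 : HasDerivAt (fun y : ℝ => κ * y) κ t := by
    simpa using (hasDerivAt_id t).const_mul κ
  have h1 := (h0.cos.const_mul a).add (h0.sin.const_mul b)
  refine h1.congr_deriv ?_
  ring

theorem hC3 : StC3 := by
  intro κ a b p q hκ hpq hπ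
  constructor
  · intro h
    refine ⟨h p ⟨le_refl _, hpq.le⟩, h q ⟨hpq.le, le_refl _⟩, ?_⟩
    by_contra hcon
    push Not at hcon
    obtain ⟨h1, h2, h3⟩ := hcon
    have hc : ContinuousOn (fun y => b * cos (κ * y) - a * sin (κ * y)) (Icc p q) := by
      apply Continuous.continuousOn
      fun_prop
    obtain ⟨t, ht, htz⟩ := intermediate_value_Icc' hpq.le hc
      (show (0 : ℝ) ∈ Icc (b * cos (κ * q) - a * sin (κ * q)) (b * cos (κ * p) - a * sin (κ * p))
        from ⟨h3.le, h2.le⟩)
    simp only at htz
    have hpt : p < t := by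
      rcases eq_or_lt_of_le ht.1 with h4 | h4
      · rw [← h4] at htz; linarith
      · exact h4
    have hsin : 0 < sin (κ * (t - p)) := by
      apply sin_pos_of_pos_of_lt_pi
      · exact mul_pos hκ (by linarith)
      · have : κ * (t - p) ≤ κ * (q - p) := by
          apply mul_le_mul_of_nonneg_left _ hκ.le
          linarith [ht.2]
        linarith
    have h4 := g_shift κ a b p t
    rw [htz] at h4
    have h5 : sin (κ * (p - t)) = - sin (κ * (t - p)) := by
      rw [← sin_neg]; congr 1; ring
    rw [h5] at h4
    have h6 : 0 < (a * cos (κ * t) + b * sin (κ * t)) * sin (κ * (t - p)) := by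
      have : (a * cos (κ * t) + b * sin (κ * t)) * sin (κ * (t - p)) =
          b * cos (κ * p) - a * sin (κ * p) := by rw [h4]; ring
      rw [this]; exact h2
    have h7 : 0 < a * cos (κ * t) + b * sin (κ * t) := (pos_iff_pos_of_mul_pos h6).2 hsin
    have h8 := h t ht
    have h9 := sq_id a b (sin (κ * t)) (cos (κ * t)) (sin_sq_add_cos_sq _)
    rw [htz] at h9
    nlinarith
  · rintro ⟨h1, h2, h3⟩ y hy
    by_contra hcon
    push Not at hcon
    have hc : ContinuousOn (fun y => a * cos (κ * y) + b * sin (κ * y)) (Icc p q) := by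
      apply Continuous.continuousOn
      fun_prop
    obtain ⟨t, ht, hmax⟩ := isCompact_Icc.exists_isMaxOn ⟨y, hy⟩ hc
    have hty : a * cos (κ * y) + b * sin (κ * y) ≤ a * cos (κ * t) + b * sin (κ * t) := hmax hy
    have hpt : p < t := by
      rcases eq_or_lt_of_le ht.1 with h4 | h4
      · rw [← h4] at hty; linarith
      · exact h4
    have htq : t < q := by
      rcases eq_or_lt_of_le ht.2 with h4 | h4
      · rw [h4] at hty; linarith
      · exact h4
    have hloc : IsLocalMax (fun y => a * cos (κ * y) + b * sin (κ * y)) t :=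
      hmax.isLocalMax (Icc_mem_nhds hpt htq)
    have hd := hloc.hasDerivAt_eq_zero (hasDeriv κ a b t)
    have hg : b * cos (κ * t) - a * sin (κ * t) = 0 := by
      rcases mul_eq_zero.1 hd with h4 | h4
      · exact absurd h4 hκ.ne'
      · exact h4
    have hft : 0 < a * cos (κ * t) + b * sin (κ * t) := by linarith
    rcases h3 with h3 | h3 | h3
    · have h9 := sq_id a b (sin (κ * t)) (cos (κ * t)) (sin_sq_add_cos_sq _)
      rw [hg] at h9
      nlinarith
    · have hsin : 0 < sin (κ * (t - p)) := by
        apply sin_pos_of_pos_of_lt_pi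
        · exact mul_pos hκ (by linarith)
        · have : κ * (t - p) ≤ κ * (q - p) := by
            apply mul_le_mul_of_nonneg_left _ hκ.le
            linarith
          linarith
      have h4 := g_shift κ a b p t
      rw [hg] at h4
      have h5 : sin (κ * (p - t)) = - sin (κ * (t - p)) := by
        rw [← sin_neg]; congr 1; ring
      rw [h5] at h4
      have h6 := mul_pos hft hsin
      linarith
    · have hsin : 0 < sin (κ * (q - t)) := by
        apply sin_pos_of_pos_of_lt_pi
        · exact mul_pos hκ (by linarith)
        · have : κ * (q - t) ≤ κ * (q - p) := by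
            apply mul_le_mul_of_nonneg_left _ hκ.le
            linarith
          linarith
      have h4 := g_shift κ a b q t
      rw [hg] at h4
      have h6 := mul_pos hft hsin
      linarith

end Pool.Agent.Helper39.HQ

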